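import Mathlib
import Pool.Agent.Lib.MP_331cea_nt.Cofactor

/-!
# MP_331cea_nt : two integers `n` with `U(n, k) > V(n, k)` which have the same cofactor of a power of `2`
(or of `3`) are exponentially far apart
-/

set_option autoImplicit false

namespace Pool.Agent.Results.MP_331cea_nt.FixedCofactor

open Pool.Agent.Lib.MP_331cea_nt

/-- Let `k = 3` and `0 ≤ i, i' ≤ 2`, or `k = 5` and `0 ≤ i, i' ≤ 4`, or `k = 7` and `2 ≤ i, i' ≤ 4`, and
let `n, n' ≥ 2 k` be such that the part of `C(n, k)` composed of the primes `≤ k` is larger than the part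
composed of the primes `> k`, and the same for `n'`.
If `n - i = 2 ^ a * u`, `n' - i' = 2 ^ b * u` with `b ≥ a + 3` and `u` not divisible by `3`, then
`n ≤ 9 k ^ k (b - a + 2) ^ 2`. If `n - i = 3 ^ a * u`, `n' - i' = 3 ^ b * u` with `b ≥ a + 2` and `u` not
divisible by `8`, then `n ≤ 1024 k ^ k (b - a + 1) ^ 2`. -/
theorem result :
    ∀ k lo hi : ℕ, (k, lo, hi) ∈ ({(3, 0, 2), (5, 0, 4), (7, 2, 4)} : Finset (ℕ × ℕ × ℕ)) →
      ∀ n n' i i' a b u : ℕ, 2 * k ≤ n → 2 * k ≤ n' →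
        largePart n k < smallPart n k → largePart n' k < smallPart n' k →
        lo ≤ i → i ≤ hi → lo ≤ i' → i' ≤ hi →
        (¬ 3 ∣ u → a + 3 ≤ b → n = 2 ^ a * u + i → n' = 2 ^ b * u + i' →
          n ≤ 9 * k ^ k * (b - a + 2) ^ 2) ∧
        (¬ 8 ∣ u → a + 2 ≤ b → n = 3 ^ a * u + i → n' = 3 ^ b * u + i' →
          n ≤ 1024 * k ^ k * (b - a + 1) ^ 2) := by
  intro k lo hi hk n n' i i' a b u hn hn' h h' h1 h2 h3 h4
  have hk' : (k = 3 ∧ lo = 0 ∧ hi = 2) ∨ (k = 5 ∧ lo = 0 ∧ hi = 4) ∨ (k = 7 ∧ lo = 2 ∧ hi = 4) := by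
    simpa using hk
  have hkk : k = 3 ∨ k = 5 ∨ k = 7 := by omega
  have hi1 : i < k ∧ i ≤ 4 ∧ k ≤ i + 5 := by omega
  have hi2 : i' < k ∧ i' ≤ 4 ∧ k ≤ i' + 5 := by omega
  exact ⟨fun hu hab e e' => cofactor_two hkk (by omega) hi1 hi2 hu hab e e' h h',
    fun hu hab e e' => cofactor_three hkk (by omega) hi1 hi2 hu hab e e' h h'⟩

end Pool.Agent.Results.MP_331cea_nt.FixedCofactor
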