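import Mathlib
import Pool.Agent.Lib.MP_331cea_nt.Count

/-!
# MP_331cea_nt : the integers `n` with `U(n, k) > V(n, k)`, `k = 3, 5, 7`, are far apart
-/

set_option autoImplicit false

namespace Pool.Agent.Results.MP_331cea_nt.GapPrinciple

open Pool.Agent.Lib.MP_331cea_nt

/-- For `k = 3, 5, 7` an interval `[M, N]` with `3 ^ 9 N ^ 2 < M ^ 3`, `5 ^ 10 N ^ 3 < M ^ 5`,
`7 ^ 14 N ^ 3 < M ^ 7`, respectively, contains at most `18`, `125`, `2401`, respectively, integers
`n ≥ 2 k` for which the part `U(n, k)` of `C(n, k)` composed of primes `≤ k` is larger than the part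
`V(n, k)` composed of primes `> k`. -/
theorem result :
    ∀ k a d b : ℕ,
      (k, a, d, b) ∈ ({(3, 9, 2, 18), (5, 10, 3, 125), (7, 14, 3, 2401)} :
        Finset (ℕ × ℕ × ℕ × ℕ)) →
      ∀ M N : ℕ, k ^ a * N ^ d < M ^ k →
        ((Finset.Icc M N).filter
          (fun n => 2 * k ≤ n ∧ largePart n k < smallPart n k)).card ≤ b := by
  intro k a d b h M N hMN
  simp only [Finset.mem_insert, Finset.mem_singleton, Prod.mk.injEq] at h
  rcases h with ⟨rfl, rfl, rfl, rfl⟩ | ⟨rfl, rfl, rfl, rfl⟩ | ⟨rfl, rfl, rfl, rfl⟩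
  · exact main3 hMN
  · exact main5 hMN
  · exact main7 hMN

end Pool.Agent.Results.MP_331cea_nt.GapPrinciple
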