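import Mathlib
import Pool.Agent.Lib.MP_331cea_nt.Near

/-!
# MP_331cea_nt : the integers `n` with `U(n, k) > V(n, k)`, `k = 3, 5, 7`, for which one of
`n, n - 1, ..., n - k + 1` has no prime factor larger than `3`
-/

set_option autoImplicit false

namespace Pool.Agent.Results.MP_331cea_nt.SmoothNeighbour

open Pool.Agent.Lib.MP_331cea_nt

/-- Let `n ≥ 2 k` and let `n - i` with `i < k` be of the form `2 ^ a * 3 ^ b`. If the part `U(n, k)`
of `C(n, k)` composed of the primes `≤ k` is larger than the part `V(n, k)` composed of the primes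
`> k`, then `n` is one of `8, 9, 10, 18, 82, 162` for `k = 3`, one of `10, 12, 28` for `k = 5`, and
one of `21, 30, 54` for `k = 7`, where for `k = 7` the numbers `n = 3 ^ b + 5`, `n = 3 ^ b + 6` and
`n = 2 ^ a + 6` are left out. -/
theorem result :
    ∀ n i a b : ℕ, n = 2 ^ a * 3 ^ b + i →
      (i < 3 → 6 ≤ n → largePart n 3 < smallPart n 3 →
        n ∈ ({8, 9, 10, 18, 82, 162} : Finset ℕ)) ∧
      (i < 5 → 10 ≤ n → largePart n 5 < smallPart n 5 →
        n ∈ ({10, 12, 28} : Finset ℕ)) ∧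
      (i < 7 → (a = 0 → i ≤ 4) → (b = 0 → i ≤ 5) → 14 ≤ n → largePart n 7 < smallPart n 7 →
        n ∈ ({21, 30, 54} : Finset ℕ)) := by
  intro n i a b hab
  refine ⟨fun hi hn h => ?_, fun hi hn h => ?_, fun hi h1 h2 hn h => ?_⟩
  · simpa using smooth3 hn hi hab h
  · simpa using smooth5 hn hi hab h
  · simpa using smooth7 hn hi h1 h2 hab h

end Pool.Agent.Results.MP_331cea_nt.SmoothNeighbour
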